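import Pool.Agent.Helper890.Cov.All
import Pool.Agent.Helper890.Cov2DI

/-!
# Covariogram determination of directly indecomposable bodies: bodies of class `C^2_+`
-/

namespace Pool.Agent.Results.MP_177351_gt.C2PlusCase

open MeasureTheory Set Topology
open scoped Pointwise

/-- `K` is of class `C^2_+`: its boundary is a `C^2` hypersurface with nonvanishing Gauss
curvature.  Near every boundary point `p` the set `K` is `{ρ ≤ 0}` with a function `ρ` which is
`C^2` in a neighbourhood of `p` and has nonzero derivative at `p`, and the second derivative of `ρ`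
at `p`, restricted to the tangent hyperplane `{w : dρ(p) w = 0}` (a nonzero multiple of the second
fundamental form of the boundary at `p`), is nondegenerate.  For a convex body the second
fundamental form is semidefinite, so this says that the Gauss curvature is strictly positive at
every point. -/
def IsC2Plus {n : ℕ} (K : Set (EuclideanSpace ℝ (Fin n))) : Prop :=
  ∀ p ∈ frontier K, ∃ ρ : EuclideanSpace ℝ (Fin n) → ℝ,
    ContDiffAt ℝ 2 ρ p ∧ fderiv ℝ ρ p ≠ 0 ∧ (∀ᶠ x in 𝓝 p, x ∈ K ↔ ρ x ≤ 0) ∧
    ∀ w, w ≠ 0 → fderiv ℝ ρ p w = 0 →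
      ∃ w', fderiv ℝ ρ p w' = 0 ∧ fderiv ℝ (fderiv ℝ ρ) p w w' ≠ 0

/-- `K` is directly indecomposable: whenever `K = L + M` with compact convex sets `L`, `M` lying in
complementary linear subspaces, `L` or `M` has at most one point. -/
def DirectlyIndecomposable {n : ℕ} (K : Set (EuclideanSpace ℝ (Fin n))) : Prop :=
  ∀ (U W : Submodule ℝ (EuclideanSpace ℝ (Fin n))), IsCompl U W →
    ∀ (L M : Set (EuclideanSpace ℝ (Fin n))), IsCompact L → Convex ℝ L → IsCompact M → Convex ℝ M →
      L ⊆ (U : Set (EuclideanSpace ℝ (Fin n))) → M ⊆ (W : Set (EuclideanSpace ℝ (Fin n))) →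
      K = L + M → L.Subsingleton ∨ M.Subsingleton

/-- For every `n ≥ 3`, every convex body `K ⊆ ℝⁿ` of class `C^2_+` is directly indecomposable and
is determined by its covariogram, up to translation and reflection, among all convex bodies of
class `C^2_+`. -/
theorem result (n : ℕ) (hn : 3 ≤ n) (K : Set (EuclideanSpace ℝ (Fin n)))
    (hK1 : IsCompact K) (hK2 : Convex ℝ K) (hK3 : (interior K).Nonempty) (hKc : IsC2Plus K) :
    DirectlyIndecomposable K ∧
    ∀ H : Set (EuclideanSpace ℝ (Fin n)), IsCompact H → Convex ℝ H → (interior H).Nonempty →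
      IsC2Plus H →
      (∀ x, (volume (H ∩ (fun y => y + x) '' H)).toReal =
        (volume (K ∩ (fun y => y + x) '' K)).toReal) →
      ∃ z : EuclideanSpace ℝ (Fin n), H = (fun x => x + z) '' K ∨ H = (fun x => -x + z) '' K := by
  refine ⟨?_, ?_⟩
  · have h2 := Pool.Agent.Helper890.Cov.JS0.stS0 n K hK1 hK2 hK3 hKc
    exact Pool.Agent.Helper890.Cov2.directlyIndecomposable_of_c2p K hK1 hK2 hK3 h2
  · intro H hH1 hH2 hH3 hHc hg
    exact Pool.Agent.Helper890.Cov.fin n (by omega) H K hH1 hH2 hH3 hK1 hK2 hK3 hHc hKc hg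

end Pool.Agent.Results.MP_177351_gt.C2PlusCase
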